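import Pool.Agent.Helper191_Fac.Final

set_option autoImplicit false

namespace Pool.Agent.Results.MP_6f1fe1_nt.DensityZeroTwo

/-- For the prime 2, the set of those `a ≥ 1` for which some infinite strictly increasing sequence
`u 0 = a < u 1 < u 2 < ...` has `v_2(u 0 ! + ... + u n !)` tending to infinity has natural
density zero. -/
theorem result :
    Filter.Tendsto (fun N : ℕ =>
      ((({a : ℕ | 1 ≤ a ∧ a ≤ N ∧ ∃ u : ℕ → ℕ, StrictMono u ∧ u 0 = a ∧
        Filter.Tendsto (fun n => padicValNat 2 (∑ i ∈ Finset.range (n + 1), (u i).factorial))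
          Filter.atTop Filter.atTop}).ncard : ℕ) : ℝ) / N)
      Filter.atTop (nhds 0) :=
  Pool.Agent.Helper191_Fac.two_density

end Pool.Agent.Results.MP_6f1fe1_nt.DensityZeroTwo
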