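import Pool.Agent.Helper191_Long.Final

set_option autoImplicit false

namespace Pool.Agent.Results.MP_6f1fe1_nt.PositiveProportion

/-- For the prime 61: for all large `N`, at least `N / 10000` of the integers `1 ≤ a ≤ N` have the
property that for every `L ≥ 1` with `L ^ 20 ≤ N` there is a set `A` of integers in `[a, a + L)`,
with least element `a`, whose sum of factorials is divisible by the full power of 61 that divides
`(a + L)!`. -/
theorem result :
    ∃ N₀ : ℕ, ∀ N : ℕ, N₀ ≤ N →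
      (N : ℝ) / 10000 ≤ (({a : ℕ | 1 ≤ a ∧ a ≤ N ∧ ∀ L : ℕ, 1 ≤ L → L ^ 20 ≤ N →
        ∃ A : Finset ℕ, a ∈ A ∧ (∀ x ∈ A, a ≤ x ∧ x < a + L) ∧
          61 ^ (padicValNat 61 (a + L).factorial) ∣ ∑ x ∈ A, x.factorial}).ncard : ℝ) :=
  ⟨61 ^ 1280, fun N hN => Pool.Agent.Helper191_Long.main N hN⟩

end Pool.Agent.Results.MP_6f1fe1_nt.PositiveProportion
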