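import Pool.Agent.Helper191_Fac.Sparse

set_option autoImplicit false

namespace Pool.Agent.Results.MP_6f1fe1_nt.SparseFamilies

/-- Let `p` be a prime and let `F` be a family of 0-1 sequences with at most `C * lam ^ n` different
beginnings of length `n` for every `n`, where `lam ^ (p - 1) < p`. Then the set of those `a ≥ 1`
for which some infinite strictly increasing sequence `u 0 = a < u 1 < ...` has indicator sequence
(counted from `a`) in `F` and `v_p(u 0 ! + ... + u n !)` tending to infinity has natural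
density zero. -/
theorem result (p : ℕ) (hp : p.Prime) (F : Set (ℕ → Bool)) (C lam : ℝ) (h0 : 0 ≤ lam)
    (hlam : lam ^ (p - 1) < p)
    (hF : ∀ n : ℕ, (((fun (ε : ℕ → Bool) => fun i : Fin n => ε i) '' F).ncard : ℝ) ≤ C * lam ^ n) :
    Filter.Tendsto (fun N : ℕ =>
      ((({a : ℕ | 1 ≤ a ∧ a ≤ N ∧ ∃ u : ℕ → ℕ, StrictMono u ∧ u 0 = a ∧
        (∃ ε ∈ F, ∀ i, ε i = true ↔ ∃ j, u j = u 0 + i) ∧
        Filter.Tendsto (fun n => padicValNat p (∑ i ∈ Finset.range (n + 1), (u i).factorial))
          Filter.atTop Filter.atTop}).ncard : ℕ) : ℝ) / N)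
      Filter.atTop (nhds 0) := by
  haveI : Fact p.Prime := ⟨hp⟩
  exact Pool.Agent.Helper191_Fac.sparse_density p F C lam h0 hlam hF

end Pool.Agent.Results.MP_6f1fe1_nt.SparseFamilies
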